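import Mathlib

/-!
# Total domination and path covers in regular graphs: a 7-regular counterexample
-/

namespace Pool.Agent.Results.MP_f6a359_co.SevenRegular

universe u

/-- Total dominating sets: every vertex has a neighbour in the set. -/
def IsTotalDominating {V : Type u} (G : SimpleGraph V) (S : Finset V) : Prop :=
  ∀ v, ∃ w ∈ S, G.Adj v w

/-- The total domination number. -/
noncomputable def totalDomNum {V : Type u} (G : SimpleGraph V) : ℕ :=
  sInf {m | ∃ S : Finset V, IsTotalDominating G S ∧ S.card = m}

/-- Path covers: finite sets of pairwise disjoint paths, written as nonempty lists of distinct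
vertices in which consecutive vertices are adjacent, such that every vertex lies on one of them. -/
def IsPathCover {V : Type u} (G : SimpleGraph V) (P : Finset (List V)) : Prop :=
  (∀ l ∈ P, l ≠ [] ∧ l.Nodup ∧ l.IsChain G.Adj) ∧
    (∀ l ∈ P, ∀ l' ∈ P, l ≠ l' → ∀ v, v ∈ l → v ∉ l') ∧ ∀ v, ∃ l ∈ P, v ∈ l

/-- The path covering number. -/
noncomputable def pathCoverNum {V : Type u} (G : SimpleGraph V) : ℕ :=
  sInf {m | ∃ P : Finset (List V), IsPathCover G P ∧ P.card = m}

/-- Vertices: two special vertices and seven blocks of eight vertices. -/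
abbrev V : Type := Fin 2 ⊕ (Fin 7 × Fin 8)

/-- Adjacency. -/
def adj : V → V → Bool
  | .inl _, .inl _ => false
  | .inl j, .inr p => decide (p.2.val = j.val)
  | .inr p, .inl j => decide (p.2.val = j.val)
  | .inr p, .inr q => decide (p.1 = q.1 ∧ p.2 ≠ q.2 ∧ 2 ≤ p.2.val + q.2.val)

theorem adj_symm : ∀ p q : V, adj p q = adj q p := by
  rintro (p | p) (q | q)
  · rfl
  · rfl
  · rfl
  · simp only [adj, decide_eq_decide]
    constructor
    · rintro ⟨h1, h2, h3⟩; exact ⟨h1.symm, h2.symm, by omega⟩
    · rintro ⟨h1, h2, h3⟩; exact ⟨h1.symm, h2.symm, by omega⟩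

/-- The graph: the blocks are complete graphs on eight vertices minus one edge, the ends of which
are joined to the two special vertices. -/
def G : SimpleGraph V where
  Adj p q := adj p q = true
  symm := ⟨fun p q h => by rw [adj_symm]; exact h⟩
  loopless := ⟨by
    rintro (p | p) h
    · simp [adj] at h
    · simp [adj] at h⟩

instance : DecidableRel G.Adj := fun p q => inferInstanceAs (Decidable (adj p q = true))

theorem regular : G.IsRegularOfDegree 7 := by
  intro v
  revert v
  decide +kernel

/-- A total dominating set with nine elements. -/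
def S : Finset V :=
  {.inl 0, .inl 1, .inr (0, 1), .inr (1, 0), .inr (2, 0), .inr (3, 0), .inr (4, 0), .inr (5, 0),
    .inr (6, 0)}

theorem S_total : IsTotalDominating G S := by
  unfold IsTotalDominating
  decide +kernel

theorem totalDomNum_le : totalDomNum G ≤ 9 := Nat.sInf_le ⟨S, S_total, by decide⟩

open Classical in
/-- The special vertices on a list. -/
noncomputable def specials (l : List V) : Finset (Fin 2) := Finset.univ.filter (fun j => Sum.inl j ∈ l)

open Classical in
/-- The blocks met by a list. -/
noncomputable def blocks (l : List V) : Finset (Fin 7) := Finset.univ.filter (fun i => ∃ a, Sum.inr (i, a) ∈ l)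

theorem mem_specials (l : List V) (j : Fin 2) : j ∈ specials l ↔ Sum.inl j ∈ l := by
  simp [specials]

theorem mem_blocks (l : List V) (i : Fin 7) : i ∈ blocks l ↔ ∃ a, Sum.inr (i, a) ∈ l := by
  simp [blocks]

theorem specials_cons_inl (j : Fin 2) (l : List V) :
    specials (Sum.inl j :: l) = insert j (specials l) := by
  ext i; simp [specials]

theorem specials_cons_inr (p : Fin 7 × Fin 8) (l : List V) :
    specials (Sum.inr p :: l) = specials l := by
  ext i; simp [specials]

theorem blocks_cons_inl (j : Fin 2) (l : List V) :
    blocks (Sum.inl j :: l) = blocks l := by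
  ext i; simp [blocks]

theorem blocks_cons_inr (p : Fin 7 × Fin 8) (l : List V) :
    blocks (Sum.inr p :: l) = insert p.1 (blocks l) := by
  ext i
  simp only [blocks, List.mem_cons, Sum.inr.injEq, Finset.mem_filter, Finset.mem_univ, true_and,
    Finset.mem_insert]
  constructor
  · rintro ⟨a, h | h⟩
    · left; rw [← h]
    · exact Or.inr ⟨a, h⟩
  · rintro (h | ⟨a, h⟩)
    · exact ⟨p.2, Or.inl (by rw [h])⟩
    · exact ⟨a, Or.inr h⟩

/-- A path meets at most one block more than special vertices. -/
theorem blocks_le (l : List V) (hn : l.Nodup) (hc : l.IsChain G.Adj) :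
    (blocks l).card ≤ 1 + (specials l).card ∧
      ∀ j l', l = Sum.inl j :: l' → (blocks l).card ≤ (specials l).card := by
  induction l with
  | nil =>
    constructor
    · simp [blocks]
    · intro j l' h; exact absurd h (by simp)
  | cons x l ih =>
    have hn' := List.nodup_cons.1 hn
    have ih' := ih hn'.2 hc.tail
    rcases x with j | p
    · have hj : j ∉ specials l := by
        intro h
        rw [mem_specials] at h
        exact hn'.1 h
      have h1 : (blocks (Sum.inl j :: l)).card ≤ (specials (Sum.inl j :: l)).card := by
        rw [blocks_cons_inl, specials_cons_inl, Finset.card_insert_of_notMem hj]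
        have := ih'.1
        omega
      exact ⟨by omega, fun _ _ _ => h1⟩
    · refine ⟨?_, fun j l' h => by simp at h⟩
      rw [blocks_cons_inr, specials_cons_inr]
      cases l with
      | nil =>
        refine (Finset.card_insert_le _ _).trans ?_
        simp [blocks]
      | cons y l =>
        rcases y with j | q
        · have := ih'.2 j l rfl
          refine (Finset.card_insert_le _ _).trans ?_
          omega
        · have hadj : G.Adj (Sum.inr p) (Sum.inr q) := by
            rw [List.isChain_cons_cons] at hc
            exact hc.1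
          have hpq : p.1 = q.1 := by
            have h2 : adj (Sum.inr p) (Sum.inr q) = true := hadj
            simp only [adj, decide_eq_true_eq] at h2
            exact h2.1
          have hmem : p.1 ∈ blocks (Sum.inr q :: l) := by
            rw [blocks_cons_inr, hpq]
            exact Finset.mem_insert_self _ _
          rw [Finset.insert_eq_of_mem hmem]
          exact ih'.1

theorem le_pathCoverNum : 5 ≤ pathCoverNum G := by
  apply le_csInf
  · refine ⟨_, Finset.univ.image (fun v : V => [v]), ⟨?_, ?_, ?_⟩, rfl⟩
    · intro l hl
      obtain ⟨v, -, rfl⟩ := Finset.mem_image.1 hl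
      simp
    · intro l hl l' hl' hne v hv hv'
      obtain ⟨w, -, rfl⟩ := Finset.mem_image.1 hl
      obtain ⟨w', -, rfl⟩ := Finset.mem_image.1 hl'
      rw [List.mem_singleton] at hv hv'
      exact hne (by rw [← hv, ← hv'])
    · intro v
      exact ⟨[v], Finset.mem_image_of_mem _ (Finset.mem_univ v), by simp⟩
  · rintro b ⟨P, ⟨hP, hdisj, hcov⟩, rfl⟩
    have h1 : (Finset.univ : Finset (Fin 7)) ⊆ P.biUnion blocks := by
      intro i _
      obtain ⟨l, hl, hi⟩ := hcov (Sum.inr (i, 0))
      rw [Finset.mem_biUnion]
      exact ⟨l, hl, (mem_blocks _ _).2 ⟨0, hi⟩⟩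
    have h2 : 7 ≤ ∑ l ∈ P, (blocks l).card := by
      have := (Finset.card_le_card h1).trans Finset.card_biUnion_le
      rwa [Finset.card_univ, Fintype.card_fin] at this
    have h3 : ∑ l ∈ P, (specials l).card ≤ 2 := by
      rw [← Finset.card_biUnion]
      · refine (Finset.card_le_univ _).trans ?_
        simp
      · intro l hl l' hl' hne
        change Disjoint (specials l) (specials l')
        rw [Finset.disjoint_left]
        intro j hj hj'
        rw [mem_specials] at hj hj'
        exact hdisj l hl l' hl' hne _ hj hj'
    have h4 : ∑ l ∈ P, (blocks l).card ≤ ∑ l ∈ P, (1 + (specials l).card) :=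
      Finset.sum_le_sum fun l hl => (blocks_le l (hP l hl).2.1 (hP l hl).2.2).1
    rw [Finset.sum_add_distrib, Finset.sum_const, smul_eq_mul, mul_one] at h4
    omega

/-- There is a `7`-regular graph with total domination number smaller than twice its path covering
number. -/
theorem result : ∃ (V : Type) (_ : Fintype V) (G : SimpleGraph V) (_ : DecidableRel G.Adj),
    G.IsRegularOfDegree 7 ∧ totalDomNum G < 2 * pathCoverNum G := by
  refine ⟨V, inferInstance, G, inferInstance, regular, ?_⟩
  have h1 := totalDomNum_le
  have h2 := le_pathCoverNum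
  omega

end Pool.Agent.Results.MP_f6a359_co.SevenRegular
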